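import Pool.Agent.WR3.StmtsA

/-!
Row SPD of WR3 (spreading).
-/

namespace Pool.Agent.WR3.H65

open Pool.Agent.WR3

/-- the induction: after `i` steps to the left and `j` steps to the right the value is still almost `M`. -/
theorem spread (f : ℝ → ℝ) (M a b δ V1 vs : ℝ) (N : ℕ) (ha : 0 ≤ a) (hb : 0 ≤ b) (hδ : 0 ≤ δ)
    (h1 : ∀ v ≥ V1, f v ≤ M + δ)
    (h2 : ∀ v ≥ V1, |f v - (f (v - a) + f (v + b)) / 2| ≤ δ)
    (h3 : V1 + (N + 1) * a ≤ vs) (h4 : M - δ ≤ f vs) :
    ∀ n : ℕ, n ≤ N → ∀ i j : ℕ, i + j = n → M - 5 ^ n * δ ≤ f (vs - i * a + j * b) := by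
  intro n
  induction n with
  | zero =>
      intro _ i j hij
      have hi : i = 0 := by omega
      have hj : j = 0 := by omega
      subst hi; subst hj
      have : vs - ((0 : ℕ) : ℝ) * a + ((0 : ℕ) : ℝ) * b = vs := by simp
      rw [this]
      simpa using h4
  | succ n ih =>
      intro hn i j hij
      have h5 : (1 : ℝ) ≤ 5 ^ n := one_le_pow₀ (by norm_num)
      have hp : (5 : ℝ) ^ (n + 1) = 5 * 5 ^ n := by ring
      -- the key step
      have key : ∀ v' : ℝ, V1 + a ≤ v' → M - 5 ^ n * δ ≤ f v' →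
          M - 5 ^ (n + 1) * δ ≤ f (v' - a) ∧ M - 5 ^ (n + 1) * δ ≤ f (v' + b) := by
        intro v' hv' hf
        have e1 := h1 (v' - a) (by linarith)
        have e2 := h1 (v' + b) (by linarith)
        have e3 := abs_le.mp (h2 v' (by linarith))
        have e4 : δ ≤ 5 ^ n * δ := by nlinarith
        rw [hp]
        constructor
        · nlinarith [e3.1, e3.2]
        · nlinarith [e3.1, e3.2]
      have hlow : ∀ i' j' : ℕ, i' ≤ n → V1 + a ≤ vs - i' * a + j' * b := by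
        intro i' j' hi'
        have c1 : (i' : ℝ) ≤ N := by
          have : i' ≤ N := by omega
          exact_mod_cast this
        have c2 : (0 : ℝ) ≤ j' * b := mul_nonneg (Nat.cast_nonneg _) hb
        have c3 : (i' : ℝ) * a ≤ N * a := mul_le_mul_of_nonneg_right c1 ha
        nlinarith
      rcases Nat.eq_zero_or_pos i with hi | hi
      · have hj : 1 ≤ j := by omega
        obtain ⟨j', rfl⟩ : ∃ j', j = j' + 1 := ⟨j - 1, by omega⟩
        have hk := key (vs - i * a + j' * b) (hlow i j' (by omega)) (ih (by omega) i j' (by omega))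
        have e : vs - (i : ℝ) * a + ((j' + 1 : ℕ) : ℝ) * b = vs - i * a + j' * b + b := by
          push_cast; ring
        rw [e]
        exact hk.2
      · obtain ⟨i', rfl⟩ : ∃ i', i = i' + 1 := ⟨i - 1, by omega⟩
        have hk := key (vs - i' * a + j * b) (hlow i' j (by omega)) (ih (by omega) i' j (by omega))
        have e : vs - ((i' + 1 : ℕ) : ℝ) * a + (j : ℝ) * b = vs - i' * a + j * b - a := by
          push_cast; ring
        rw [e]
        exact hk.1

/-- Row SPD. -/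
theorem spd (hDir : DirStmt) : SpdStmt := by
  intro f M hM hf0 hmono hsup hclose hharm ε0 hε0 V
  -- reduce to ε ≤ 1
  obtain ⟨ε, hε, hεle, hε1⟩ : ∃ ε : ℝ, 0 < ε ∧ ε ≤ ε0 ∧ ε ≤ 1 :=
    ⟨min ε0 1, lt_min hε0 one_pos, min_le_left _ _, min_le_right _ _⟩
  have hα : 0 < Real.log 2 := Real.log_pos (by norm_num)
  have hβ : 0 < Real.log (3 / 2) := Real.log_pos (by norm_num)
  have h3 : Real.log 3 = Real.log 2 + Real.log (3 / 2) := by
    rw [← Real.log_mul (by norm_num) (by norm_num)]; norm_num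
  generalize hαdef : Real.log 2 = α at *
  generalize hβdef : Real.log (3 / 2) = β at *
  have hη : 0 < ε / (4 * (M + 1)) := by positivity
  obtain ⟨k, r, hk1, hkr, hθ0, hθη⟩ := hDir (ε / (4 * (M + 1))) hη
  rw [h3, hαdef] at hθ0 hθη
  obtain ⟨q, rfl⟩ : ∃ q, r = k + q := ⟨r - k, by omega⟩
  obtain ⟨θ, hθdef⟩ : ∃ θ : ℝ, θ = (k : ℝ) * (α + β) - ((k + q : ℕ) : ℝ) * α := ⟨_, rfl⟩
  rw [← hθdef] at hθ0 hθη
  have hθ' : θ = k * β - q * α := by rw [hθdef]; push_cast; ring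
  obtain ⟨J, hJ⟩ : ∃ J : ℕ, α / |θ| ≤ J := exists_nat_ge _
  have hJ' : α ≤ J * |θ| := by
    rwa [div_le_iff₀ hθ0] at hJ
  obtain ⟨N, hN⟩ : ∃ N : ℕ, N = J * (k + q) := ⟨_, rfl⟩
  have h5N : (1 : ℝ) ≤ 5 ^ N := one_le_pow₀ (by norm_num)
  obtain ⟨δ, hδdef⟩ : ∃ δ : ℝ, δ = ε / (2 * 5 ^ N) := ⟨_, rfl⟩
  have hδ : 0 < δ := by rw [hδdef]; positivity
  have hδε : 5 ^ N * δ = ε / 2 := by
    rw [hδdef]; field_simp
  have hδ1 : δ ≤ 1 := by
    nlinarith
  obtain ⟨Va, hVa⟩ := hsup δ hδ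
  obtain ⟨Vb, hVb⟩ := hharm δ hδ
  obtain ⟨V1, hV1⟩ : ∃ V1 : ℝ, V1 = max V (max Va Vb) := ⟨_, rfl⟩
  have hV : V ≤ V1 := by rw [hV1]; exact le_max_left _ _
  have hVa' : Va ≤ V1 := by rw [hV1]; exact le_trans (le_max_left _ _) (le_max_right _ _)
  have hVb' : Vb ≤ V1 := by rw [hV1]; exact le_trans (le_max_right _ _) (le_max_right _ _)
  obtain ⟨vs, hvs, hfvs⟩ := hclose δ hδ (V1 + (N + 1) * α)
  have hs := spread f M α β δ V1 vs N hα.le hβ.le hδ.le
    (fun v hv => hVa v (le_trans hVa' hv)) (fun v hv => hVb v (le_trans hVb' hv)) hvs hfvs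
  -- the points vs + j θ
  have hpt : ∀ j : ℕ, j ≤ J → M - ε / 2 ≤ f (vs + j * θ) ∧ V1 ≤ vs + j * θ := by
    intro j hj
    have hn : j * q + j * k ≤ N := by
      rw [hN]
      calc j * q + j * k = j * (k + q) := by ring
        _ ≤ J * (k + q) := Nat.mul_le_mul_right _ hj
    have h := hs (j * q + j * k) hn (j * q) (j * k) rfl
    have e : vs - ((j * q : ℕ) : ℝ) * α + ((j * k : ℕ) : ℝ) * β = vs + j * θ := by
      rw [hθ']; push_cast; ring
    rw [e] at h
    have h5 : (5 : ℝ) ^ (j * q + j * k) ≤ 5 ^ N := pow_le_pow_right₀ (by norm_num) hn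
    have h6 : (5 : ℝ) ^ (j * q + j * k) * δ ≤ ε / 2 := by
      rw [← hδε]; exact mul_le_mul_of_nonneg_right h5 hδ.le
    constructor
    · linarith
    · have c1 : ((j * q : ℕ) : ℝ) ≤ N := by
        have : j * q ≤ N := by omega
        exact_mod_cast this
      have c2 : ((j * q : ℕ) : ℝ) * α ≤ N * α := mul_le_mul_of_nonneg_right c1 hα.le
      have c3 : (0 : ℝ) ≤ ((j * k : ℕ) : ℝ) * β := mul_nonneg (Nat.cast_nonneg _) hβ.le
      rw [← e]
      nlinarith
  have hend : ∀ (v : ℝ) (j : ℕ), j ≤ J → vs + j * θ ≤ v → v ≤ vs + j * θ + ε / (4 * (M + 1)) →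
      M - ε0 ≤ f v := by
    intro v j hj hv1 hv2
    obtain ⟨p1, p2⟩ := hpt j hj
    have m1 := hmono (vs + j * θ) v hv1
    have m2 : f (vs + j * θ) ≤ M + 1 := by
      have := hVa (vs + j * θ) (le_trans hVa' p2)
      linarith
    have m3 := Real.add_one_le_exp (vs + j * θ - v)
    have m4 := hf0 (vs + j * θ)
    have m5 : (1 - ε / (4 * (M + 1))) * f (vs + j * θ) ≤ Real.exp (vs + j * θ - v) * f (vs + j * θ) :=
      mul_le_mul_of_nonneg_right (by linarith) m4
    have m6 : ε / (4 * (M + 1)) * f (vs + j * θ) ≤ ε / (4 * (M + 1)) * (M + 1) :=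
      mul_le_mul_of_nonneg_left m2 hη.le
    have m7 : ε / (4 * (M + 1)) * (M + 1) = ε / 4 := by
      have : M + 1 ≠ 0 := by positivity
      field_simp
    nlinarith
  rcases lt_or_ge 0 θ with hθp | hθn
  · -- θ > 0
    have habs : |θ| = θ := abs_of_pos hθp
    rw [habs] at hJ' hθη
    refine ⟨vs + α, ?_, ?_⟩
    · have : (0 : ℝ) ≤ (N + 1) * α := by positivity
      linarith
    · intro v hv1 hv2
      have hv1' : 0 ≤ v - vs := by linarith
      have hd : 0 ≤ (v - vs) / θ := div_nonneg hv1' hθp.le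
      have f1 := Nat.floor_le hd
      have f2 := Nat.lt_floor_add_one ((v - vs) / θ)
      rw [le_div_iff₀ hθp] at f1
      rw [div_lt_iff₀ hθp] at f2
      have f3 : ⌊(v - vs) / θ⌋₊ ≤ J := by
        have : (⌊(v - vs) / θ⌋₊ : ℝ) < J + 1 := by
          have g1 : (⌊(v - vs) / θ⌋₊ : ℝ) * θ < (J + 1) * θ := by nlinarith
          exact lt_of_mul_lt_mul_right g1 hθp.le
        have : ⌊(v - vs) / θ⌋₊ < J + 1 := by exact_mod_cast this
        omega
      exact hend v _ f3 (by linarith) (by nlinarith)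
  · -- θ < 0
    have hθn' : θ < 0 := lt_of_le_of_ne hθn (by
      intro h; rw [h] at hθ0; simp at hθ0)
    have habs : |θ| = -θ := abs_of_neg hθn'
    rw [habs] at hJ' hθη hθ0
    refine ⟨vs, ?_, ?_⟩
    · have : (0 : ℝ) ≤ (N + 1) * α := by positivity
      linarith
    · intro v hv1 hv2
      have hd : 0 ≤ (vs - v) / (-θ) := div_nonneg (by linarith) hθ0.le
      have f1 := Nat.le_ceil ((vs - v) / (-θ))
      have f2 := Nat.ceil_lt_add_one hd
      rw [div_le_iff₀ hθ0] at f1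
      have f2' : (⌈(vs - v) / (-θ)⌉₊ : ℝ) * (-θ) < ((vs - v) / (-θ) + 1) * (-θ) :=
        mul_lt_mul_of_pos_right f2 hθ0
      have f2'' : ((vs - v) / (-θ) + 1) * (-θ) = (vs - v) + (-θ) := by
        rw [add_mul, div_mul_cancel₀ _ hθ0.ne']; ring
      rw [f2''] at f2'
      have f3 : ⌈(vs - v) / (-θ)⌉₊ ≤ J := by
        apply Nat.ceil_le.mpr
        rw [div_le_iff₀ hθ0]
        linarith
      exact hend v _ f3 (by linarith) (by linarith)

end Pool.Agent.WR3.H65
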